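import Pool.Agent.W979.TE.Defs3

/-!
# Project TE3, task BS (helper797)
-/

set_option autoImplicit false

open Classical

namespace Pool.Agent.W797.TE3

open Pool.Agent.W715.BC
open Pool.Agent.W979.TE3

/-- the sum of the products of the sizes of Xc and Xa -/
theorem sum_prod (hH : S_HC) (s' q K M1 L : ℕ) (A B : Type) [Fintype A] [Fintype B] (r : A → B → Prop)
    (D : ℕ) (i : Fin (s' + 1)) (hR : Reg r D K) :
    ∑ ρ : Option (Fin (s' + 1)) → Fin q → A, (Xc r L M1 i ρ).card * (Xa r L M1 i ρ).card ≤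
      Fintype.card A ^ 2 * (K * D) ^ (2 * hh (s' + 1) q - 2) := by
  let T : Finset ((_ : Option (Fin (s' + 1)) → Fin q → A) × (A × A)) :=
    Finset.univ.sigma (fun ρ => Xc r L M1 i ρ ×ˢ Xa r L M1 i ρ)
  have hT : T.card = ∑ ρ : Option (Fin (s' + 1)) → Fin q → A,
      (Xc r L M1 i ρ).card * (Xa r L M1 i ρ).card := by
    rw [Finset.card_sigma]
    apply Finset.sum_congr rfl
    intro ρ _
    rw [Finset.card_product]
  rw [← hT]
  let emb : Option (Fin s') → Option (Fin (s' + 1)) := Option.map i.succAbove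
  have hex : ∀ p : (_ : Option (Fin (s' + 1)) → Fin q → A) × (A × A), p ∈ T →
      ∃ w : Cop A B s' q × Cop A B 0 q, (Hm r w.1 ∧ Hm r w.2) ∧ w.1.1 none = p.2.1 ∧
        (∀ x', w.1.2.1 x' = p.1 (emb x')) ∧ w.2.1 none = p.2.2 ∧ w.2.2.1 none = p.1 (some i) := by
    intro p hp
    rw [Finset.mem_sigma, Finset.mem_product] at hp
    obtain ⟨-, hc, ha⟩ := hp
    unfold Xc at hc
    unfold Xa at ha
    rw [Finset.mem_filter] at hc ha
    obtain ⟨-, z, hz, hz1, hz2⟩ := hc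
    obtain ⟨-, y, hy, hy1, hy2⟩ := ha
    have hzH := hz.1
    have hyH := hy.1
    refine ⟨⟨⟨fun x => z.1 (emb x), fun x => z.2.1 (emb x), fun k => z.2.2.1 (i.succAbove k),
        fun x => z.2.2.2 (emb x)⟩,
      ⟨fun _ => y.1 (some i), fun _ => y.2.1 (some i), Fin.elim0, fun _ => y.2.2.2 (some i)⟩⟩, ⟨?_, ?_⟩, ?_, ?_, ?_, ?_⟩
    · refine ⟨fun k => hzH.1 _, fun k => hzH.2.1 _, fun x l => hzH.2.2.1 _ _, fun x l => hzH.2.2.2 _ _⟩
    · refine ⟨fun k => k.elim0, fun k => k.elim0, fun x l => hyH.2.2.1 _ _, fun x l => hyH.2.2.2 _ _⟩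
    · exact hz1
    · intro x'
      apply hz2
      cases x' with
      | none => simp [emb]
      | some k =>
        simp only [emb, Option.map_some, ne_eq, Option.some.injEq]
        exact Fin.succAbove_ne i k
    · exact hy1
    · exact hy2
  choose F hF using hex
  have hcard : T.card ≤ ((Finset.univ.filter (fun z : Cop A B s' q => Hm r z)) ×ˢ
      (Finset.univ.filter (fun z : Cop A B 0 q => Hm r z))).card := by
    rw [← Finset.card_attach]
    apply Finset.card_le_card_of_injOn (fun p => F p.1 p.2)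
    · intro p _
      have h := (hF p.1 p.2).1
      rw [Finset.mem_coe, Finset.mem_product, Finset.mem_filter, Finset.mem_filter]
      exact ⟨⟨Finset.mem_univ _, h.1⟩, ⟨Finset.mem_univ _, h.2⟩⟩
    · rintro ⟨⟨ρ, c, a⟩, hp⟩ _ ⟨⟨ρ', c', a'⟩, hp'⟩ _ h
      obtain ⟨-, h1, h2, h3, h4⟩ := hF _ hp
      obtain ⟨-, g1, g2, g3, g4⟩ := hF _ hp'
      simp only at h h1 h2 h3 h4 g1 g2 g3 g4
      rw [h] at h1 h2 h3 h4
      have e1 : c = c' := by rw [← h1, g1]
      have e2 : a = a' := by rw [← h3, g3]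
      have e3 : ρ = ρ' := by
        funext x
        cases x with
        | none =>
          have := (h2 none).symm.trans (g2 none)
          exact this
        | some k =>
          by_cases hk : k = i
          · rw [hk, ← h4, g4]
          · obtain ⟨k', hk'⟩ := Fin.exists_succAbove_eq hk
            have := (h2 (some k')).symm.trans (g2 (some k'))
            simp only [emb, Option.map_some, hk'] at this
            exact this
      subst e1 e2 e3
      rfl
  have h1 := (hH s' q K A B r D hR).2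
  have h2 := (hH 0 q K A B r D hR).2
  have e : 2 * hh s' q + 2 * hh 0 q = 2 * hh (s' + 1) q - 2 := by
    unfold hh
    have : (s' + 1 + 1) * q = (s' + 1) * q + q := by ring
    rw [this]
    omega
  calc T.card ≤ _ := hcard
    _ = (Finset.univ.filter (fun z : Cop A B s' q => Hm r z)).card *
        (Finset.univ.filter (fun z : Cop A B 0 q => Hm r z)).card := Finset.card_product _ _
    _ ≤ (Fintype.card A * (K * D) ^ (2 * hh s' q)) * (Fintype.card A * (K * D) ^ (2 * hh 0 q)) :=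
        Nat.mul_le_mul h1 h2
    _ = Fintype.card A ^ 2 * (K * D) ^ (2 * hh (s' + 1) q - 2) := by
        rw [← e, pow_add]
        ring

/-- the minimum of two numbers -/
theorem min_aux {D x y w : ℝ} (hD : 0 < D) (hx : w ≤ x) (hy : w ≤ y) (hx0 : 0 ≤ x) (hy0 : 0 ≤ y) :
    w ≤ D + x * y / D := by
  have hxy : 0 ≤ x * y / D := by positivity
  by_cases h : w ≤ D
  · linarith
  · push Not at h
    have h1 : x ≤ x * y / D := by
      rw [le_div_iff₀ hD]
      have : D ≤ y := by linarith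
      gcongr
    linarith

/-- final computation -/
theorem fin_aux (κ M0 ν a2 D P KD KK : ℝ) (D2 : ℝ) (hκ : 0 ≤ κ) (hM0 : 0 ≤ M0) (hν : 0 < ν) (ha2 : 0 ≤ a2)
    (hD : 0 < D) (hP : 0 ≤ P) (hKK : 0 ≤ KK) (hD2 : 0 ≤ D2) (h : KD * D ^ 2 ≤ KK * D2) :
    (P * (κ * (M0 + ν)) + κ * (ν / D ^ 2) * (a2 * KD)) * D ^ 4 ≤
      (κ * (M0 + 1) + κ * KK) * (1 + ν) * P * D ^ 4 + (κ * (M0 + 1) + κ * KK) * ν * a2 * D2 := by
  have h0 : M0 + ν ≤ (M0 + 1) * (1 + ν) := by nlinarith
  calc (P * (κ * (M0 + ν)) + κ * (ν / D ^ 2) * (a2 * KD)) * D ^ 4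
      = (κ * (M0 + ν)) * P * D ^ 4 + κ * ν * a2 * (KD * D ^ 2) := by
        field_simp
    _ ≤ (κ * ((M0 + 1) * (1 + ν))) * P * D ^ 4 + κ * ν * a2 * (KK * D2) := by
        gcongr
    _ ≤ (κ * ((M0 + 1) * (1 + ν))) * P * D ^ 4 + κ * ν * a2 * (KK * D2) +
        (κ * KK * (1 + ν) * P * D ^ 4 + κ * (M0 + 1) * ν * a2 * D2) := by
        have : 0 ≤ κ * KK * (1 + ν) * P * D ^ 4 + κ * (M0 + 1) * ν * a2 * D2 := by positivity
        linarith
    _ = _ := by ring

theorem bs : S_KAP → S_HC → S_BS := by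
  intro hKAP hH s q t K M1 M0 hs hq hK0
  obtain ⟨s', rfl⟩ : ∃ s', s = s' + 1 := ⟨s - 1, by omega⟩
  set L := Pool.Agent.W979.TE3.LT (s' + 1) q t with hL
  set κ : ℕ := M1 ^ (s' + 1) * L ^ hh (s' + 1) q with hκ
  refine ⟨κ * (M0 + 1) + κ * K ^ (2 * hh (s' + 1) q), ?_⟩
  intro ν hν A B _ _ _ r D i yf hR hD
  have hDr : (0 : ℝ) < D := by exact_mod_cast hD
  have hKr : (1 : ℝ) ≤ K := by exact_mod_cast hK0
  set Z : Finset (Cop A B (s' + 1) q) := Finset.univ.filter (fun z : Cop A B (s' + 1) q =>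
      CC r L M1 z ∧ z.2.2.1 i = yf z.2.1 ∧
      (mm r (Xc r L M1 i z.2.1) (z.2.2.1 i) : ℝ) ≤
        (M0 : ℝ) + ν / D * ((Xc r L M1 i z.2.1).card : ℝ) ∧
      (mm r (Xa r L M1 i z.2.1) (z.2.2.1 i) : ℝ) ≤
        (M0 : ℝ) + ν / D * ((Xa r L M1 i z.2.1).card : ℝ)) with hZ
  have hmem : ∀ z ∈ Z, CC r L M1 z ∧ z.2.2.1 i = yf z.2.1 ∧
      (mm r (Xc r L M1 i z.2.1) (z.2.2.1 i) : ℝ) ≤
        (M0 : ℝ) + ν / D * ((Xc r L M1 i z.2.1).card : ℝ) ∧
      (mm r (Xa r L M1 i z.2.1) (z.2.2.1 i) : ℝ) ≤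
        (M0 : ℝ) + ν / D * ((Xa r L M1 i z.2.1).card : ℝ) := by
    intro z hz
    rw [hZ, Finset.mem_filter] at hz
    exact hz.2
  have hfib : Z.card = ∑ ρ : Option (Fin (s' + 1)) → Fin q → A, (Z.filter (fun z => z.2.1 = ρ)).card := by
    apply Finset.card_eq_sum_card_fiberwise
    intro z _
    exact Finset.mem_coe.mpr (Finset.mem_univ _)
  -- generic fibre bound
  have gen : ∀ (ρ : Option (Fin (s' + 1)) → Fin q → A) (x : Option (Fin (s' + 1))) (X : Finset A),
      (∀ z ∈ Z, z.2.1 = ρ → z.1 x ∈ X ∧ r (z.1 x) (yf ρ)) →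
      (Z.filter (fun z => z.2.1 = ρ)).card ≤ κ * mm r X (yf ρ) := by
    intro ρ x X hX
    have h1 : (Z.filter (fun z => z.2.1 = ρ)).card =
        ∑ a ∈ X.filter (fun a => r a (yf ρ)), ((Z.filter (fun z => z.2.1 = ρ)).filter (fun z => z.1 x = a)).card := by
      apply Finset.card_eq_sum_card_fiberwise
      intro z hz
      rw [Finset.mem_coe, Finset.mem_filter] at hz
      rw [Finset.mem_coe, Finset.mem_filter]
      exact hX z hz.1 hz.2
    have h2 : ∀ a ∈ X.filter (fun a => r a (yf ρ)),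
        ((Z.filter (fun z => z.2.1 = ρ)).filter (fun z => z.1 x = a)).card ≤ κ := by
      intro a _
      refine le_trans (Finset.card_le_card ?_) (hKAP (s' + 1) q L M1 A B r ρ x a)
      intro z hz
      rw [Finset.mem_filter, Finset.mem_filter] at hz
      rw [Finset.mem_filter]
      exact ⟨Finset.mem_univ _, (hmem z hz.1.1).1, hz.1.2, hz.2⟩
    rw [h1]
    refine le_trans (Finset.sum_le_card_nsmul _ _ κ h2) ?_
    rw [smul_eq_mul, mul_comm]
    exact le_rfl
  have hN : ∀ ρ : Option (Fin (s' + 1)) → Fin q → A,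
      ((Z.filter (fun z => z.2.1 = ρ)).card : ℝ) ≤ κ * (M0 + ν) +
        κ * (ν / D ^ 2) * (((Xc r L M1 i ρ).card * (Xa r L M1 i ρ).card : ℕ) : ℝ) := by
    intro ρ
    rcases (Z.filter (fun z => z.2.1 = ρ)).eq_empty_or_nonempty with he | ⟨z, hz⟩
    · rw [he]
      simp only [Finset.card_empty, Nat.cast_zero]
      positivity
    · rw [Finset.mem_filter] at hz
      obtain ⟨hz, hzρ⟩ := hz
      obtain ⟨h1, h2, h3, h4⟩ := hmem z hz
      rw [h2, hzρ] at h3 h4
      have hc := gen ρ none (Xc r L M1 i ρ) (by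
        intro z' hz' hρ
        obtain ⟨g1, g2, -, -⟩ := hmem z' hz'
        refine ⟨?_, ?_⟩
        · unfold Xc
          rw [Finset.mem_filter]
          exact ⟨Finset.mem_univ _, z', g1, rfl, fun x _ => by rw [hρ]⟩
        · have := g1.1.1 i
          rw [g2, hρ] at this
          exact this)
      have ha := gen ρ (some i) (Xa r L M1 i ρ) (by
        intro z' hz' hρ
        obtain ⟨g1, g2, -, -⟩ := hmem z' hz'
        refine ⟨?_, ?_⟩
        · unfold Xa
          rw [Finset.mem_filter]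
          exact ⟨Finset.mem_univ _, z', g1, rfl, by rw [hρ]⟩
        · have := g1.1.2.1 i
          rw [g2, hρ] at this
          exact this)
      have hc' : ((Z.filter (fun z => z.2.1 = ρ)).card : ℝ) ≤
          κ * (M0 + ν / D * ((Xc r L M1 i ρ).card : ℝ)) := by
        calc ((Z.filter (fun z => z.2.1 = ρ)).card : ℝ) ≤ (κ : ℝ) * (mm r (Xc r L M1 i ρ) (yf ρ) : ℝ) := by
              exact_mod_cast hc
          _ ≤ _ := by gcongr
      have ha' : ((Z.filter (fun z => z.2.1 = ρ)).card : ℝ) ≤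
          κ * (M0 + ν / D * ((Xa r L M1 i ρ).card : ℝ)) := by
        calc ((Z.filter (fun z => z.2.1 = ρ)).card : ℝ) ≤ (κ : ℝ) * (mm r (Xa r L M1 i ρ) (yf ρ) : ℝ) := by
              exact_mod_cast ha
          _ ≤ _ := by gcongr
      have hmin := min_aux (D := (D : ℝ)) (x := ((Xc r L M1 i ρ).card : ℝ)) (y := ((Xa r L M1 i ρ).card : ℝ))
        (w := min ((Xc r L M1 i ρ).card : ℝ) ((Xa r L M1 i ρ).card : ℝ)) hDr (min_le_left _ _) (min_le_right _ _)
        (Nat.cast_nonneg _) (Nat.cast_nonneg _)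
      have hm2 : ((Z.filter (fun z => z.2.1 = ρ)).card : ℝ) ≤
          κ * (M0 + ν / D * min ((Xc r L M1 i ρ).card : ℝ) ((Xa r L M1 i ρ).card : ℝ)) := by
        rcases min_choice ((Xc r L M1 i ρ).card : ℝ) ((Xa r L M1 i ρ).card : ℝ) with h | h
        · rw [h]; exact hc'
        · rw [h]; exact ha'
      calc ((Z.filter (fun z => z.2.1 = ρ)).card : ℝ)
          ≤ κ * (M0 + ν / D * min ((Xc r L M1 i ρ).card : ℝ) ((Xa r L M1 i ρ).card : ℝ)) := hm2
        _ ≤ κ * (M0 + ν / D * ((D : ℝ) + ((Xc r L M1 i ρ).card : ℝ) * ((Xa r L M1 i ρ).card : ℝ) / D)) := by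
            gcongr
        _ = _ := by
            push_cast
            field_simp
            ring
  have hρcard : Fintype.card (Option (Fin (s' + 1)) → Fin q → A) = Fintype.card A ^ ((s' + 1 + 1) * q) := by
    rw [Fintype.card_fun, Fintype.card_fun, Fintype.card_option, Fintype.card_fin, Fintype.card_fin, ← pow_mul]
    congr 1
    ring
  clear_value Z κ L
  have hS := sum_prod hH s' q K M1 L A B r D i hR
  have hS' : ((∑ ρ : Option (Fin (s' + 1)) → Fin q → A, (Xc r L M1 i ρ).card * (Xa r L M1 i ρ).card : ℕ) : ℝ) ≤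
      (Fintype.card A : ℝ) ^ 2 * ((K : ℝ) * D) ^ (2 * hh (s' + 1) q - 2) := by
    exact_mod_cast hS
  have hρ' : (Fintype.card (Option (Fin (s' + 1)) → Fin q → A) : ℝ) =
      (Fintype.card A : ℝ) ^ ((s' + 1 + 1) * q) := by
    rw [hρcard, Nat.cast_pow]
  have hsum : (Z.card : ℝ) ≤ (Fintype.card A : ℝ) ^ ((s' + 1 + 1) * q) * (κ * (M0 + ν)) +
      κ * (ν / D ^ 2) * ((Fintype.card A : ℝ) ^ 2 * ((K : ℝ) * D) ^ (2 * hh (s' + 1) q - 2)) := by
    calc (Z.card : ℝ) = ∑ ρ : Option (Fin (s' + 1)) → Fin q → A, ((Z.filter (fun z => z.2.1 = ρ)).card : ℝ) := by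
          rw [hfib, Nat.cast_sum]
      _ ≤ ∑ ρ : Option (Fin (s' + 1)) → Fin q → A, ((κ : ℝ) * (M0 + ν) +
          κ * (ν / D ^ 2) * (((Xc r L M1 i ρ).card * (Xa r L M1 i ρ).card : ℕ) : ℝ)) :=
          Finset.sum_le_sum (fun ρ _ => hN ρ)
      _ = (Fintype.card (Option (Fin (s' + 1)) → Fin q → A) : ℝ) * ((κ : ℝ) * (M0 + ν)) +
          κ * (ν / D ^ 2) * ((∑ ρ : Option (Fin (s' + 1)) → Fin q → A,
            (Xc r L M1 i ρ).card * (Xa r L M1 i ρ).card : ℕ) : ℝ) := by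
          rw [Finset.sum_add_distrib, Finset.sum_const, Finset.card_univ, nsmul_eq_mul, ← Finset.mul_sum,
            Nat.cast_sum]
      _ ≤ _ := by
          rw [hρ']
          have h0 : (0 : ℝ) ≤ κ * (ν / D ^ 2) := by positivity
          have h5 := mul_le_mul_of_nonneg_left hS' h0
          linarith
  -- conclusion
  have hh2 : 2 * hh (s' + 1) q - 2 + 2 = 2 * hh (s' + 1) q := by
    unfold hh
    omega
  have hK2 : ((K : ℝ) * D) ^ (2 * hh (s' + 1) q - 2) * D ^ 2 ≤ (K : ℝ) ^ (2 * hh (s' + 1) q) * (D : ℝ) ^ (2 * hh (s' + 1) q) := by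
    calc ((K : ℝ) * D) ^ (2 * hh (s' + 1) q - 2) * D ^ 2
        = (K : ℝ) ^ (2 * hh (s' + 1) q - 2) * (D : ℝ) ^ (2 * hh (s' + 1) q) := by
          rw [mul_pow, mul_assoc, ← pow_add, hh2]
      _ ≤ _ := by
          gcongr
          omega
  have hfin := fin_aux (κ : ℝ) (M0 : ℝ) ν ((Fintype.card A : ℝ) ^ 2) (D : ℝ)
    ((Fintype.card A : ℝ) ^ ((s' + 1 + 1) * q)) (((K : ℝ) * D) ^ (2 * hh (s' + 1) q - 2))
    ((K : ℝ) ^ (2 * hh (s' + 1) q)) ((D : ℝ) ^ (2 * hh (s' + 1) q)) (Nat.cast_nonneg _) (Nat.cast_nonneg _) hν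
    (by positivity) hDr (by positivity) (by positivity) (by positivity) hK2
  exact le_trans (mul_le_mul_of_nonneg_right hsum (by positivity)) hfin

end Pool.Agent.W797.TE3
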