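import Pool.Agent.W979.TE.Defs3
import Pool.Agent.W715.BC.Kst

/-!
# Project TE3, task E0 (helper797)
-/

set_option autoImplicit false

open Classical

namespace Pool.Agent.W797.TE3

open Pool.Agent.W715.BC
open Pool.Agent.W979.TE3

/-- injective choice from large sets -/
theorem choice {E B : Type} [Fintype E] (S : E → Finset B) (h : ∀ e, Fintype.card E ≤ (S e).card) :
    ∃ f : E → B, Function.Injective f ∧ ∀ e, f e ∈ S e := by
  rw [← Finset.all_card_le_biUnion_card_iff_exists_injective]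
  intro T
  rcases T.eq_empty_or_nonempty with rfl | ⟨e, he⟩
  · simp
  · calc T.card ≤ Fintype.card E := Finset.card_le_univ T
      _ ≤ (S e).card := h e
      _ ≤ (T.biUnion S).card := Finset.card_le_card (Finset.subset_biUnion_of_mem S he)

/-- blowup from a complete bipartite pattern of heavy pairs -/
theorem blow_of_pattern {A B : Type} [Fintype B] (r : A → B → Prop) (s q t : ℕ)
    (G0 : Fin t ⊕ (Fin s × Fin q) → A) (G1 : (Fin t × Fin s) ⊕ Fin q → A)
    (h0 : Function.Injective G0) (h1 : Function.Injective G1) (h01 : ∀ a b, G0 a ≠ G1 b)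
    (hc : ∀ a b, LT s q t ≤ (cn r (G0 a) (G1 b)).card) : SBlow r s q t := by
  let u : Fin t → Option (Fin s) → A := fun j x => match x with
    | none => G0 (Sum.inl j)
    | some i => G1 (Sum.inl (j, i))
  let ρ : Option (Fin s) → Fin q → A := fun x l => match x with
    | none => G1 (Sum.inr l)
    | some i => G0 (Sum.inr (i, l))
  have hcs : ∀ x y : A, cn r x y = cn r y x := by
    intro x y
    unfold cn
    ext z
    simp only [Finset.mem_filter, Finset.mem_univ, true_and]
    exact and_comm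
  let S : Fin t × (Fin s ⊕ Option (Fin s) × Fin q) → Finset B := fun p => match p.2 with
    | Sum.inl i => cn r (u p.1 none) (u p.1 (some i))
    | Sum.inr z => cn r (u p.1 z.1) (ρ z.1 z.2)
  have hcard : Fintype.card (Fin t × (Fin s ⊕ Option (Fin s) × Fin q)) ≤ LT s q t := by
    simp only [Fintype.card_prod, Fintype.card_sum, Fintype.card_option, Fintype.card_fin]
    unfold Pool.Agent.W979.TE3.LT hh
    rw [mul_comm t]
    omega
  have hS : ∀ e, Fintype.card (Fin t × (Fin s ⊕ Option (Fin s) × Fin q)) ≤ (S e).card := by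
    rintro ⟨j, (i | ⟨x, l⟩)⟩
    · exact le_trans hcard (hc _ _)
    · cases x with
      | none => exact le_trans hcard (hc _ _)
      | some i =>
        refine le_trans hcard ?_
        show LT s q t ≤ (cn r (G1 (Sum.inl (j, i))) (G0 (Sum.inr (i, l)))).card
        rw [hcs]
        exact hc _ _
  obtain ⟨f, hf, hfS⟩ := choice S hS
  have hm : ∀ (x y : A) (z : B), z ∈ cn r x y → r x z ∧ r y z := by
    intro x y z hz
    unfold cn at hz
    simpa using hz
  refine ⟨u, ρ, fun j i => f (j, Sum.inl i), fun j x l => f (j, Sum.inr (x, l)), ?_, ?_, ?_, ?_, ?_, ?_, ?_, ?_⟩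
  · intro j i
    exact (hm _ _ _ (hfS (j, Sum.inl i))).1
  · intro j i
    exact (hm _ _ _ (hfS (j, Sum.inl i))).2
  · intro j x l
    exact (hm _ _ _ (hfS (j, Sum.inr (x, l)))).1
  · intro j x l
    exact (hm _ _ _ (hfS (j, Sum.inr (x, l)))).2
  · rintro ⟨j, (_ | i)⟩ ⟨j', (_ | i')⟩ h
    · have := h0 h
      simp only [Sum.inl.injEq] at this
      rw [this]
    · exact absurd h (h01 _ _)
    · exact absurd h.symm (h01 _ _)
    · have := h1 h
      simp only [Sum.inl.injEq, Prod.mk.injEq] at this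
      rw [this.1, this.2]
  · rintro ⟨(_ | i), l⟩ ⟨(_ | i'), l'⟩ h
    · have := h1 h
      simp only [Sum.inr.injEq] at this
      rw [this]
    · exact absurd h.symm (h01 _ _)
    · exact absurd h (h01 _ _)
    · have := h0 h
      simp only [Sum.inr.injEq, Prod.mk.injEq] at this
      rw [this.1, this.2]
  · rintro j (_ | i) (_ | i') l h
    · exact absurd h (h01 _ _)
    · exact absurd (h0 h) (by simp)
    · exact absurd (h1 h) (by simp)
    · exact absurd h.symm (h01 _ _)
  · rintro ⟨j, z⟩ ⟨j', z'⟩ h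
    apply hf
    cases z <;> cases z' <;> exact h

theorem E0 : S_E0 := by
  intro s q t β hβ
  set m : ℕ := t * (s + 1) + (s + 1) * q + 1 with hm
  obtain ⟨N₀, hN₀⟩ := Pool.Agent.W715.BC.K150.kst 2 m (β / 2) (by positivity)
  refine ⟨max N₀ ⌈2 / β⌉₊, ?_⟩
  intro A B _ _ r F hF hH
  have hF1 : N₀ ≤ F.card := le_trans (le_max_left _ _) hF
  have hF2 : 2 / β ≤ (F.card : ℝ) := by
    have h1 : ⌈2 / β⌉₊ ≤ F.card := le_trans (le_max_right _ _) hF
    exact le_trans (Nat.le_ceil _) (by exact_mod_cast h1)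
  let Y := {x // x ∈ F}
  let H : Finset (Fin 2 → Y) := Finset.univ.filter
    (fun x => (x 0).1 ≠ (x 1).1 ∧ LT s q t ≤ (cn r (x 0).1 (x 1).1).card)
  have hYc : Fintype.card Y = F.card := Fintype.card_coe F
  -- the count
  have hsub : ((F ×ˢ F).filter (fun p : A × A => p.1 = p.2 ∨ LT s q t ≤ (cn r p.1 p.2).card)) ⊆
      F.image (fun x => (x, x)) ∪ H.image (fun x => ((x 0).1, (x 1).1)) := by
    rintro ⟨a, b⟩ hab
    rw [Finset.mem_filter, Finset.mem_product] at hab
    obtain ⟨⟨ha, hb⟩, h⟩ := hab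
    rw [Finset.mem_union, Finset.mem_image, Finset.mem_image]
    by_cases hne : a = b
    · left
      exact ⟨a, ha, by rw [← hne]⟩
    · right
      refine ⟨![⟨a, ha⟩, ⟨b, hb⟩], ?_, rfl⟩
      rw [Finset.mem_filter]
      exact ⟨Finset.mem_univ _, hne, h.resolve_left hne⟩
  have hc1 : ((F ×ˢ F).filter (fun p : A × A => p.1 = p.2 ∨ LT s q t ≤ (cn r p.1 p.2).card)).card ≤
      F.card + H.card := by
    refine le_trans (Finset.card_le_card hsub) (le_trans (Finset.card_union_le _ _) ?_)
    exact add_le_add Finset.card_image_le Finset.card_image_le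
  have hc2 : (((F ×ˢ F).filter (fun p : A × A => p.1 = p.2 ∨ LT s q t ≤ (cn r p.1 p.2).card)).card : ℝ) ≤
      F.card + H.card := by exact_mod_cast hc1
  have hFβ : (F.card : ℝ) ≤ β / 2 * (F.card : ℝ) ^ 2 := by
    have h1 : 2 ≤ (F.card : ℝ) * β := by
      rwa [div_le_iff₀ hβ] at hF2
    have h2 : (0 : ℝ) ≤ F.card := Nat.cast_nonneg _
    nlinarith
  have hHc : β / 2 * (Fintype.card Y : ℝ) ^ 2 ≤ (H.card : ℝ) := by
    rw [hYc]
    linarith
  obtain ⟨g, hg, hgH⟩ := hN₀ Y H (by rw [hYc]; exact hF1) hHc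
  -- injections of the index types
  have hc0 : Fintype.card (Fin t ⊕ (Fin s × Fin q)) ≤ Fintype.card (Fin m) := by
    simp only [Fintype.card_sum, Fintype.card_prod, Fintype.card_fin, hm]
    nlinarith [Nat.zero_le (t * s), Nat.zero_le q]
  have hc3 : Fintype.card ((Fin t × Fin s) ⊕ Fin q) ≤ Fintype.card (Fin m) := by
    simp only [Fintype.card_sum, Fintype.card_prod, Fintype.card_fin, hm]
    nlinarith [Nat.zero_le (s * q), Nat.zero_le t]
  obtain ⟨e0⟩ := Function.Embedding.nonempty_of_card_le hc0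
  obtain ⟨e1⟩ := Function.Embedding.nonempty_of_card_le hc3
  have key : ∀ a b, (g 0 a).1 ≠ (g 1 b).1 ∧ LT s q t ≤ (cn r (g 0 a).1 (g 1 b).1).card := by
    intro a b
    have h := hgH ![a, b]
    rw [Finset.mem_filter] at h
    exact h.2
  refine blow_of_pattern r s q t (fun x => (g 0 (e0 x)).1) (fun x => (g 1 (e1 x)).1) ?_ ?_ ?_ ?_
  · intro x y h
    exact e0.injective (hg 0 (Subtype.ext h))
  · intro x y h
    exact e1.injective (hg 1 (Subtype.ext h))
  · intro a b
    exact (key _ _).1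
  · intro a b
    exact (key _ _).2

end Pool.Agent.W797.TE3
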